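import Mathlib

namespace Pool.Agent.Results.MP_e68cb8_nt.Ratio

open Filter

def t (n : ℕ) : ℤ := (-1) ^ (Nat.digits 2 n).count 1

def h : ℕ → ℤ
  | 0 => 0
  | 1 => 1
  | n + 2 => t (n + 2) * h (n + 1) + h n

noncomputable def C (k i : ℕ) : ℝ :=
  liminf (fun n : ℕ => (|(h (2 ^ k * n + i + 1) : ℝ)|) / |(h (2 ^ k * n + i) : ℝ)|) atTop

lemma t_even (n : ℕ) : t (2 * n) = t n := by
  unfold t
  rcases Nat.eq_zero_or_pos n with h | h
  · simp [h]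
  · rw [Nat.digits_def' (by norm_num) (by omega)]
    simp

lemma t_odd (n : ℕ) : t (2 * n + 1) = -t n := by
  unfold t
  rw [Nat.digits_def' (by norm_num) (by omega)]
  have h1 : (2 * n + 1) % 2 = 1 := by omega
  have h2 : (2 * n + 1) / 2 = n := by omega
  rw [h1, h2]
  simp [pow_succ]

lemma t_cases (n : ℕ) : t n = 1 ∨ t n = -1 := neg_one_pow_eq_or ℤ _

lemma block (j : ℕ) (u v : ℤ) (hu : h (8 * j + 7) = u) (hv : h (8 * j + 6) = v) :
    ∃ s : ℤ, (s = 1 ∨ s = -1) ∧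
      h (8 * j + 8) = s * u + v ∧ h (8 * j + 9) = -s * v ∧ h (8 * j + 10) = s * u + 2 * v ∧
      h (8 * j + 11) = u + s * v ∧ h (8 * j + 12) = v ∧ h (8 * j + 13) = u + 2 * s * v ∧
      h (8 * j + 14) = s * u + 3 * v ∧ h (8 * j + 15) = -s * v := by
  have e0 : t (8 * j + 8) = t (j + 1) := by
    rw [show 8 * j + 8 = 2 * (2 * (2 * (j + 1))) by ring, t_even, t_even, t_even]
  have e1 : t (8 * j + 9) = -t (j + 1) := by
    rw [show 8 * j + 9 = 2 * (2 * (2 * (j + 1))) + 1 by ring, t_odd, t_even, t_even]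
  have e2 : t (8 * j + 10) = -t (j + 1) := by
    rw [show 8 * j + 10 = 2 * (2 * (2 * (j + 1)) + 1) by ring, t_even, t_odd, t_even]
  have e3 : t (8 * j + 11) = t (j + 1) := by
    rw [show 8 * j + 11 = 2 * (2 * (2 * (j + 1)) + 1) + 1 by ring, t_odd, t_odd, t_even, neg_neg]
  have e4 : t (8 * j + 12) = -t (j + 1) := by
    rw [show 8 * j + 12 = 2 * (2 * (2 * (j + 1) + 1)) by ring, t_even, t_even, t_odd]
  have e5 : t (8 * j + 13) = t (j + 1) := by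
    rw [show 8 * j + 13 = 2 * (2 * (2 * (j + 1) + 1)) + 1 by ring, t_odd, t_even, t_odd, neg_neg]
  have e6 : t (8 * j + 14) = t (j + 1) := by
    rw [show 8 * j + 14 = 2 * (2 * (2 * (j + 1) + 1) + 1) by ring, t_even, t_odd, t_odd, neg_neg]
  have e7 : t (8 * j + 15) = -t (j + 1) := by
    rw [show 8 * j + 15 = 2 * (2 * (2 * (j + 1) + 1) + 1) + 1 by ring, t_odd, t_odd, t_odd,
      neg_neg]
  have r0 : h (8 * j + 8) = t (8 * j + 8) * h (8 * j + 7) + h (8 * j + 6) := by rw [h]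
  have r1 : h (8 * j + 9) = t (8 * j + 9) * h (8 * j + 8) + h (8 * j + 7) := by rw [h]
  have r2 : h (8 * j + 10) = t (8 * j + 10) * h (8 * j + 9) + h (8 * j + 8) := by rw [h]
  have r3 : h (8 * j + 11) = t (8 * j + 11) * h (8 * j + 10) + h (8 * j + 9) := by rw [h]
  have r4 : h (8 * j + 12) = t (8 * j + 12) * h (8 * j + 11) + h (8 * j + 10) := by rw [h]
  have r5 : h (8 * j + 13) = t (8 * j + 13) * h (8 * j + 12) + h (8 * j + 11) := by rw [h]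
  have r6 : h (8 * j + 14) = t (8 * j + 14) * h (8 * j + 13) + h (8 * j + 12) := by rw [h]
  have r7 : h (8 * j + 15) = t (8 * j + 15) * h (8 * j + 14) + h (8 * j + 13) := by rw [h]
  rw [e0, hu, hv] at r0
  rw [e1, hu] at r1
  rw [e2] at r2
  rw [e3] at r3
  rw [e4] at r4
  rw [e5] at r5
  rw [e6] at r6
  rw [e7] at r7
  refine ⟨t (j + 1), t_cases _, ?_⟩
  rcases t_cases (j + 1) with e | e <;> rw [e] at r0 r1 r2 r3 r4 r5 r6 r7 ⊢ <;> omega

lemma vals : h 3 = 0 ∧ h 4 = -1 ∧ h 5 = -1 ∧ h 6 = -2 ∧ h 7 = 1 ∧ h 8 = -3 ∧ h 9 = -2 ∧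
    h 10 = -5 ∧ h 11 = 3 ∧ h 12 = -2 ∧ h 13 = 5 ∧ h 14 = -7 ∧ h 15 = -2 := by
  decide +kernel

lemma inv (j : ℕ) : 5 * (h (8 * j + 15)).natAbs ≤ 2 * (h (8 * j + 14)).natAbs := by
  induction j with
  | zero => simp [vals]
  | succ j ih =>
    obtain ⟨s, hs, -, -, -, -, -, -, e6, e7⟩ := block (j + 1) _ _ rfl rfl
    rw [e6, e7, show 8 * (j + 1) + 7 = 8 * j + 15 by ring, show 8 * (j + 1) + 6 = 8 * j + 14 by ring]
    rcases hs with rfl | rfl <;> omega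

lemma low (n : ℕ) (hn : 15 ≤ n) : 5 * (h n).natAbs ≤ 17 * (h (n + 1)).natAbs := by
  obtain ⟨j, r, hr, rfl⟩ : ∃ j r, r < 8 ∧ n = 8 * (j + 1) + 7 + r :=
    ⟨(n - 15) / 8, (n - 15) % 8, by omega, by omega⟩
  have hi := inv j
  rw [show 8 * j + 15 = 8 * (j + 1) + 7 by ring, show 8 * j + 14 = 8 * (j + 1) + 6 by ring] at hi
  obtain ⟨s, hs, e0, e1, e2, e3, e4, e5, e6, e7⟩ := block (j + 1) _ _ rfl rfl
  generalize j + 1 = i at *
  interval_cases r <;> simp only [add_assoc, Nat.reduceAdd, e0, e1, e2, e3, e4, e5, e6, e7] <;>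
    clear e0 e1 e2 e3 e4 e5 e6 e7 <;> generalize h (8 * i + 7) = u at * <;>
    generalize h (8 * i + 6) = v at * <;> rcases hs with rfl | rfl <;> omega

lemma q1 (n : ℕ) (hn : 3 ≤ n) : 2 * (h n).natAbs ≤ 7 * (h (n + 1)).natAbs := by
  by_cases h15 : 15 ≤ n
  · have := low n h15; omega
  · push Not at h15
    interval_cases n <;> simp [vals]

lemma ne (n : ℕ) (hn : 4 ≤ n) : h n ≠ 0 := by
  induction n, hn using Nat.le_induction with
  | base => simp [vals]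
  | succ n hn ih => have := q1 n (by omega); omega

lemma up (n : ℕ) (hn : 4 ≤ n) : 2 * (h (n + 1)).natAbs ≤ 9 * (h n).natAbs := by
  obtain ⟨m, rfl⟩ : ∃ m, n = m + 1 := ⟨n - 1, by omega⟩
  have r : h (m + 1 + 1) = t (m + 2) * h (m + 1) + h m := by rw [h]
  have := q1 m (by omega)
  rcases t_cases (m + 2) with e | e <;> rw [e] at r <;> omega

lemma cast_abs (x : ℤ) : |(x : ℝ)| = (x.natAbs : ℝ) := by
  rw [Nat.cast_natAbs]; simp

lemma C10 : 5 / 17 ≤ C 1 0 := by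
  unfold C
  refine le_liminf_of_le ?_ ?_
  · refine isCoboundedUnder_ge_of_eventually_le _ (x := 9 / 2) ?_
    filter_upwards [eventually_ge_atTop 2] with n hn
    have h1 := up (2 ^ 1 * n + 0) (by omega)
    have h2 := ne (2 ^ 1 * n + 0) (by omega)
    rw [cast_abs, cast_abs, div_le_div_iff₀ (by positivity) (by norm_num)]
    exact_mod_cast (by omega)
  · filter_upwards [eventually_ge_atTop 8] with n hn
    have h1 := low (2 ^ 1 * n + 0) (by omega)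
    have h2 := ne (2 ^ 1 * n + 0) (by omega)
    rw [cast_abs, cast_abs, div_le_div_iff₀ (by norm_num) (by positivity)]
    exact_mod_cast (by omega)

theorem result :
    (∀ n : ℕ, 4 ≤ n → (2 / 7 : ℝ) * |(h (n - 1) : ℝ)| ≤ |(h n : ℝ)|) ∧
    (∀ n : ℕ, 16 ≤ n → (5 / 17 : ℝ) * |(h (n - 1) : ℝ)| ≤ |(h n : ℝ)|) ∧
    (∀ n : ℕ, 5 ≤ n → h (n - 1) ≠ 0 ∧ |(h n : ℝ)| / |(h (n - 1) : ℝ)| ≤ 9 / 2) ∧
    5 / 17 ≤ C 1 0 ∧ |(h 15 : ℝ)| < C 1 0 * |(h 14 : ℝ)| ∧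
    ¬ ((∀ k i : ℕ, 1 ≤ k → i < 2 ^ k → (∃ q : ℚ, C k i = q) ∧
          ∀ n : ℕ, 4 ≤ 2 ^ k * n + i →
            C k i * |(h (2 ^ k * n + i) : ℝ)| ≤ |(h (2 ^ k * n + i + 1) : ℝ)|) ∧
        (∀ k, 1 ≤ k → C (2 * k) 0 = C (2 * k + 1) 0) ∧
        C 1 0 = 2 / 7 ∧ C 2 0 = 2 / 3 ∧ C 3 0 = 2 / 3 ∧ C 4 0 = 64 / 83 ∧ C 5 0 = 64 / 83 ∧
        C 6 0 = 52071130 / 67519091 ∧ C 7 0 = 52071130 / 67519091) := by
  have hC := C10
  refine ⟨fun n hn => ?_, fun n hn => ?_, fun n hn => ?_, hC, ?_, ?_⟩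
  · obtain ⟨m, rfl⟩ : ∃ m, n = m + 1 := ⟨n - 1, by omega⟩
    have h1 : (2 : ℝ) * (h m).natAbs ≤ 7 * (h (m + 1)).natAbs := by
      exact_mod_cast q1 m (by omega)
    rw [Nat.add_sub_cancel, cast_abs, cast_abs]
    linarith
  · obtain ⟨m, rfl⟩ : ∃ m, n = m + 1 := ⟨n - 1, by omega⟩
    have h1 : (5 : ℝ) * (h m).natAbs ≤ 17 * (h (m + 1)).natAbs := by
      exact_mod_cast low m (by omega)
    rw [Nat.add_sub_cancel, cast_abs, cast_abs]
    linarith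
  · obtain ⟨m, rfl⟩ : ∃ m, n = m + 1 := ⟨n - 1, by omega⟩
    have h1 := up m (by omega)
    have h2 := ne m (by omega)
    rw [Nat.add_sub_cancel]
    refine ⟨h2, ?_⟩
    rw [cast_abs, cast_abs, div_le_div_iff₀ (by positivity) (by norm_num)]
    exact_mod_cast (by omega)
  · simp only [vals]
    norm_num
    linarith
  · rintro ⟨-, -, h3, -⟩
    rw [h3] at hC
    norm_num at hC

end Pool.Agent.Results.MP_e68cb8_nt.Ratio
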